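import Pool.Agent.N234.CP.Final

set_option autoImplicit false

open scoped Manifold ContDiff Topology Pointwise
open Set Filter

namespace Pool.Agent.Results.MP_5c499f_an.PinchedGrowth

open Pool.Agent.H721R2 Pool.Agent.H789R2.AN Pool.Agent.TH289.K Pool.Agent.N234.CP

/-- **Pinching, entropy and the growth of the fundamental group.**
Let `f` be a `C¹` Anosov diffeomorphism of a closed connected manifold `M`, `ds = dim Eˢ`,
`du = dim Eᵘ`.

(1) Let `0 < s ≤ S` be coarse rates of `f` on the stable sets: `f` contracts them in the large at the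
rate `s` at least (`CoarseContracts`), `f⁻¹` expands them in the large at the rate `S` at most
(`CoarseExpands`), or the topological entropy of `f` is less than `S + (ds - 1) s`.  Let
`0 < u ≤ U` be such rates of `f⁻¹` on the unstable sets.  If `s / S + u / U > 1`, then `M` is covered
by `E ≅ ℝⁿ`, `n = dim M`, and `π₁(M)` has polynomial growth of degree at most
`h (S + U) / (s U + u S - S U)`, where `h` is the topological entropy of `f`: for every real `d`
greater than this number and every finite set `G` of elements of `π₁(M, x)` there are at most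
`C (n + 1) ^ d` products of `n` elements of `G`.  (If `s = S` and `u = U` the exponent is
`h / s + h / u`, which is `dim M` for conformal toral automorphisms.)

(2) In particular, if `‖Dfⁿ v‖ ≤ C e^(-s n) ‖v‖` on `Eˢ`, `‖Df⁻ⁿ v‖ ≤ C e^(-u n) ‖v‖` on `Eᵘ`
(`ContractsAt`), `h` is the topological entropy and `(h - s dim Eˢ) (h - u dim Eᵘ) < s u`, then `M` is
covered by `ℝⁿ`, `f` has global product structure and `π₁(M)` has polynomial growth. -/
theorem result (E : Type*) [NormedAddCommGroup E] [NormedSpace ℝ E] [FiniteDimensional ℝ E]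
    (M : Type*) [TopologicalSpace M] [T2Space M] [CompactSpace M] [ConnectedSpace M]
    [ChartedSpace E M] [IsManifold 𝓘(ℝ, E) ∞ M] (f : Diffeomorph 𝓘(ℝ, E) 𝓘(ℝ, E) M M 1)
    (Es Eu : ∀ x : M, Submodule ℝ (TangentSpace 𝓘(ℝ, E) x)) (hA : IsAnosov f Es Eu)
    (ds du : ℕ) (hds : ∀ x, Module.finrank ℝ (Es x) = ds)
    (hdu : ∀ x, Module.finrank ℝ (Eu x) = du) :
    (∀ s S u U : ℝ, 0 < s → s ≤ S → 0 < u → u ≤ U → CoarseContracts f s →
      (CoarseExpands f.toHomeomorph S ∨ topEntropy f < ((S + (ds - 1) * s : ℝ) : EReal)) →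
      CoarseContracts f.symm u →
      (CoarseExpands f.toHomeomorph.symm U ∨ topEntropy f < ((U + (du - 1) * u : ℝ) : EReal)) →
      1 < s / S + u / U →
      (∃ q : E → M, IsCoveringMap q ∧ Function.Surjective q) ∧
      ∀ h d : ℝ, 0 ≤ h → topEntropy f ≤ (h : EReal) →
        h * (S + U) / (s * U + u * S - S * U) < d →
        ∀ (x : M) (G : Set (FundamentalGroup M x)), G.Finite →
          ∃ C : ℝ, ∀ n : ℕ, ((G ^ n).ncard : ℝ) ≤ C * ((n : ℝ) + 1) ^ d) ∧
    ∀ s u h : ℝ, 0 < s → 0 < u → ContractsAt f Es s → ContractsAt f.symm Eu u →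
      topEntropy f ≤ (h : EReal) → (h - ds * s) * (h - du * u) < s * u →
      (∃ q : E → M, IsCoveringMap q ∧ Function.Surjective q) ∧ GPS f.toHomeomorph ∧
      ∃ d : ℕ, ∀ (x : M) (G : Set (FundamentalGroup M x)), G.Finite →
        ∃ C : ℕ, ∀ n : ℕ, (G ^ n).ncard ≤ C * (n + 1) ^ d := by
  have hA' := Pool.Agent.W740.TU.anosov_symm f Es Eu hA
  refine ⟨fun s S u U hs hsS hu huU h1 h2 h3 h4 hlt => ?_, fun s u h hs hu h1 h2 hh hlt => ?_⟩
  · have h2' : CoarseExpands f.toHomeomorph S := by
      rcases h2 with h2 | h2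
      · exact h2
      · exact coarseExpands_of_entropy f Es Eu hA ds hds s S hs (hs.trans_le hsS) h1 (Or.inl h2)
    have h4' : CoarseExpands f.toHomeomorph.symm U := by
      rcases h4 with h4 | h4
      · exact h4
      · exact coarseExpands_of_entropy f.symm Eu Es hA' du hdu u U hu (hu.trans_le huU) h3
          (Or.inr h4)
    obtain ⟨-, -, -, a4, -⟩ :=
      coarse_pinching f Es Eu hA s S u U hs hsS hu huU h1 h2' h3 h4' hlt
    exact ⟨a4, fun h d hh0 hh hd x G hG => coarse_growth f Es Eu hA s S u U hs hsS hu huU h1 h2'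
      h3 h4' hlt h d hh0 hh hd x G hG⟩
  · obtain ⟨s', S', u', U', b1, b2, b3, b4, b5, b6, b7, b8, b9⟩ :=
      rates_of_entropy f Es Eu hA ds du hds hdu s u h hs hu (Or.inl h1) (Or.inl h2) hh hlt
    obtain ⟨-, -, a3, a4, a5⟩ :=
      coarse_pinching f Es Eu hA s' S' u' U' b1 b2 b3 b4 b5 b6 b7 b8 b9
    exact ⟨a4, a3, a5⟩

end Pool.Agent.Results.MP_5c499f_an.PinchedGrowth
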