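import Pool.Agent.N520.P.B6

/-!
# Anosov diffeomorphisms with coarsely round leaves: the fundamental group
-/

set_option autoImplicit false

open scoped Manifold ContDiff Topology Pointwise
open Set Filter

namespace Pool.Agent.Results.MP_5c499f_an.RoundLeavesGrowth

open Pool.Agent.H721R2 Pool.Agent.H789R2.AN Pool.Agent.N520.P
open Pool.Agent.TH289.K (GPS)

/-- **Anosov diffeomorphisms with coarsely round leaves.**
Let `f` be a `C¹` Anosov diffeomorphism of a closed connected manifold `M` modelled on the
finite-dimensional space `E`.  For every sufficiently small neighbourhood `𝒰` of the diagonal of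
`M × M` the following holds.

(1) Suppose that the coarse growth of the leaves has a logarithmic gap (`LogGrowthGap f 𝒰`).  Then
`f` is topologically transitive, it has global product structure (`GPS`), there is a surjective
covering map `E → M`, where `E ≅ ℝⁿ`, `n = dim M`, and the fundamental group of `M` has polynomial
growth: there is an exponent `d` such that for every finite set `S` of elements of `π₁(M, x)` the
number of products of `n` elements of `S` is at most `C (n + 1) ^ d`, `C = C(S)`.

(2) There is a number `L > 1` such that `f` has a logarithmic growth gap in each of the following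
cases.
* `f⁻ⁿ` maps the local stable leaves to sets which are coarsely round, up to a factor `C Lⁿ`
  (`RoundLeaves f 𝒰 L`): if `x` and `y` are linked (they lie in the same local stable leaf) and `x`
  and `z` are not, then the distance of `f⁻ⁿ x` and `f⁻ⁿ y` in the stable leaf (the least number of
  links in a chain) is at most `C Lⁿ` times that of `f⁻ⁿ x` and `f⁻ⁿ z`.  This is a condition at
  each centre `x` separately, and nothing is assumed on the unstable leaves.
* The same for the unstable leaves (`RoundLeaves f⁻¹ 𝒰 L`).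
* The coarse growth of the leaves is pinched (`PinchedGrowth f 𝒰`): `f⁻ⁿ` expands the distances in
  the stable leaves at least `a₁ⁿ` and at most `a₂ⁿ` times, `fⁿ` expands the distances in the
  unstable leaves at least `b₁ⁿ` and at most `b₂ⁿ` times, up to constant factors, and
  `log a₁ / log a₂ + log b₁ / log b₂ > 1`.

All conditions are topological: they are invariant under topological conjugacy. -/
theorem result (E : Type*) [NormedAddCommGroup E] [NormedSpace ℝ E] [FiniteDimensional ℝ E]
    (M : Type*) [TopologicalSpace M] [T2Space M] [CompactSpace M] [ConnectedSpace M]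
    [ChartedSpace E M] [IsManifold 𝓘(ℝ, E) ∞ M] (f : Diffeomorph 𝓘(ℝ, E) 𝓘(ℝ, E) M M 1)
    (Es Eu : ∀ x : M, Submodule ℝ (TangentSpace 𝓘(ℝ, E) x)) (hA : IsAnosov f Es Eu) :
    ∃ 𝒰₀ ∈ 𝓝ˢ (diagonal M), ∀ 𝒰 ∈ 𝓝ˢ (diagonal M), 𝒰 ⊆ 𝒰₀ →
      (LogGrowthGap f.toHomeomorph 𝒰 → TopTransitive f ∧ GPS f.toHomeomorph ∧
        (∃ π : E → M, IsCoveringMap π ∧ Function.Surjective π) ∧
        ∃ d : ℕ, ∀ (x : M) (S : Set (FundamentalGroup M x)),
          S.Finite → ∃ C : ℕ, ∀ n : ℕ, (S ^ n).ncard ≤ C * (n + 1) ^ d) ∧
      ∃ L : ℝ, 1 < L ∧ (RoundLeaves f.toHomeomorph 𝒰 L ∨ RoundLeaves f.toHomeomorph.symm 𝒰 L ∨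
        PinchedGrowth f.toHomeomorph 𝒰 → LogGrowthGap f.toHomeomorph 𝒰) := by
  obtain ⟨𝒰₀, h1, h2⟩ := man_round f Es Eu hA
  refine ⟨𝒰₀, h1, fun 𝒰 h𝒰 hsub => ?_⟩
  obtain ⟨⟨L, hL, a1⟩, -, a2⟩ := h2 𝒰 h𝒰 hsub
  exact ⟨a2, L, hL, a1⟩

end Pool.Agent.Results.MP_5c499f_an.RoundLeavesGrowth
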