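import Pool.Agent.N235.TA.Main

/-!
# Anosov diffeomorphisms with a transversely affine or transversely polynomial stable foliation

The definitions of transverse structures (`TransStr`, `Expanding`, `InjUnstable`) are in
`Pool/Agent/N234/TG/Def.lean`, those of `TriAct` (actions on a vector space which are affine along a
flag) and of `polyFun` (polynomial functions of degree `≤ d`) in `Pool/Agent/N235/TA/Stm.lean`.

helper235; the algebraic parts by helper603 (`Comp`), helper953 (`Kol`), helper697 (`Fix`), helper459
(`Ref`) and helper565 (`Nil`); built on the theory of transverse structures of helper234.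
-/

set_option autoImplicit false

open Topology Module
open scoped Manifold ContDiff

namespace Pool.Agent.Results.MP_5c499f_an.TransversePolynomial

open Pool.Agent.H789R2.AN Pool.Agent.N234.TG Pool.Agent.N235.TA

/-- **Anosov diffeomorphisms whose stable foliation is transversely affine, or transversely modelled
on triangular polynomial maps.**
Let `f` be a `C¹` Anosov diffeomorphism of a closed connected smooth manifold `M`, and `V` a real
vector space with `dim V = rank Eᵘ`.  Let a topological group `G` act continuously on `V` such that

* the action is affine along a flag `0 = F 0 ⊆ F 1 ⊆ ⋯ ⊆ F r = V` (`TriAct`): for some linear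
  representation `L` of `G` on `V` which preserves the flag, `g (v + w) = g v + L g w` modulo `F i`
  for `w ∈ F (i + 1)`;
* the coordinates of `g v` are polynomial functions of `v` of degree `≤ d`, for all `g`.

For `r = d = 1` this means that `G` acts by affine maps.  Other examples: `V = N` a simply connected
nilpotent Lie group with `G = N ⋊ Aut N`; the groups of sub-resonance polynomials of the
non-stationary normal forms.

Suppose that the stable foliation of `f` has a transverse `(G, V)`-structure `D` which is preserved
by `f` (`TransStr`), such that `f` is expanding in the charts (`Expanding D`) and the charts are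
injective on the local unstable sets (`InjUnstable D`).  (No differentiability of the foliations or
of the charts, no completeness of the structure and nothing about the unstable foliation is
assumed.)

Then `M` is covered by the vector space it is modelled on, and `π₁(M)` is virtually nilpotent.
Moreover the holonomy representation `ρ` of the structure is faithful, and unipotent on a nilpotent
subgroup `Γ'` of finite index: for a flag `0 = U 0 ⊆ ⋯ ⊆ U m = V`, `ρ γ (v + w) = ρ γ v + w` modulo
`U j` for `γ ∈ Γ'` and `w ∈ U (j + 1)`. -/
theorem result (E : Type*) [NormedAddCommGroup E] [NormedSpace ℝ E] [FiniteDimensional ℝ E]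
    (M : Type*) [TopologicalSpace M] [T2Space M] [CompactSpace M] [ConnectedSpace M]
    [ChartedSpace E M] [IsManifold 𝓘(ℝ, E) ∞ M] (f : Diffeomorph 𝓘(ℝ, E) 𝓘(ℝ, E) M M 1)
    (Es Eu : ∀ x : M, Submodule ℝ (TangentSpace 𝓘(ℝ, E) x)) (hf : IsAnosov f Es Eu)
    (V : Type*) [NormedAddCommGroup V] [NormedSpace ℝ V] [FiniteDimensional ℝ V]
    (hu : ∀ x : M, finrank ℝ (Eu x) = finrank ℝ V)
    (G : Type*) [Group G] [TopologicalSpace G] [IsTopologicalGroup G] [MulAction G V]
    [ContinuousSMul G V] (A : TriAct G V) (d : ℕ)
    (hpoly : ∀ (g : G) (ℓ : Dual ℝ V), (fun v : V => ℓ (g • v)) ∈ polyFun V d)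
    (D : TransStr f.toHomeomorph G V) (hexp : Expanding D) (hinj : InjUnstable D) :
    (∃ q : E → M, IsCoveringMap q ∧ Function.Surjective q) ∧
    ∀ x : M, Group.IsVirtuallyNilpotent (FundamentalGroup M x) ∧
      ∃ ρ : FundamentalGroup M x →* G, Function.Injective ρ ∧
        ∃ Γ' : Subgroup (FundamentalGroup M x), Γ'.FiniteIndex ∧ Group.IsNilpotent Γ' ∧
        ∃ (U : ℕ → Submodule ℝ V) (m : ℕ), U 0 = ⊥ ∧ U m = ⊤ ∧ Monotone U ∧
          ∀ γ ∈ Γ', ∀ j v, ∀ w ∈ U (j + 1), ρ γ • (v + w) - ρ γ • v - w ∈ U j := by
  refine ⟨(man_main f Es Eu hf D hexp hinj).2.2.2.1, fun x => ?_⟩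
  obtain ⟨ρ, hρ, Γ', h1, h2, h3⟩ := man_ta f Es Eu hf hu D hexp hinj A d hpoly x
  exact ⟨⟨Γ', h2, h1⟩, ρ, hρ, Γ', h1, h2, h3⟩

end Pool.Agent.Results.MP_5c499f_an.TransversePolynomial
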