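import Pool.Agent.Y321.PJ.Main

/-!
# Anosov diffeomorphisms that are not transitive, and the determinants at the periodic points

The hyperbolic infranilmanifold automorphisms preserve a volume, and so an Anosov diffeomorphism that is topologically
conjugate to one of them is topologically transitive. Hence topological transitivity is a necessary part of a positive answer
to the question, and every Anosov diffeomorphism that is not transitive is a counterexample. We show what such a
counterexample `f` of class `C²` must look like: there are finitely many volume contracting periodic points `p` and finitely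
many volume expanding periodic points `q` such that the points that are forward asymptotic to some `p` and backward
asymptotic to some `q` are dense in the whole manifold. So `f` is transitive if `|det D(fᵏ)(p)| ≥ 1` at all periodic points,
or if `|det D(fᵏ)(p)| ≤ 1` at all of them.

Proof. Suppose that `f` is not transitive and let `A ≠ M` be one of the finitely many minimal attractors. If
`|det D(fᵏ)(p)| ≥ 1` at all periodic points `p` of `A`, then by the closing lemma and bounded distortion the Jacobians of all
iterates are bounded below near `A`, so that the images of a neighbourhood of `A` do not lose volume, and `A` is open, a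
contradiction. So every minimal attractor contains a volume contracting periodic point, and every minimal repeller a volume
expanding one; their stable and unstable sets are dense in the basins and meet densely. (Theorem
`Pool.Agent.Y321.PJ.main` of the starting library, which so far is used only inside the proof of `PeriodicDistortionToral`
of this problem.)
-/

set_option autoImplicit false

open scoped Manifold ContDiff Topology
open Set Filter

namespace Pool.Agent.Results.MP_5c499f_an.VolumePeriodicPoints

open Pool.Agent.H721R2 Pool.Agent.H789R2.AN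

/-- `|det D(fᵏ)(p)|`, for a point `p` with `fᵏ(p) = p`: the absolute value of the determinant of
the derivative of `fᵏ` at `p`, which is an endomorphism of the tangent space at `p`. -/
noncomputable def perJac (E : Type*) [NormedAddCommGroup E] [NormedSpace ℝ E]
    {M : Type*} [TopologicalSpace M] [ChartedSpace E M] (f : M → M) (k : ℕ) (p : M) : ℝ :=
  |(mfderiv 𝓘(ℝ, E) 𝓘(ℝ, E) (f^[k]) p : E →L[ℝ] E).det|

/-- **An Anosov diffeomorphism that is not transitive has dense heteroclinic connections from
volume expanding to volume contracting periodic points.**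
Let `f` be a `C²` Anosov diffeomorphism of a closed connected smooth manifold `M`.

(1) If `f` is not topologically transitive then there are `k ≥ 1` and finite sets `P`, `Q` of fixed
points of `fᵏ` with `|det D(fᵏ)(p)| < 1` for all `p ∈ P` and `|det D(fᵏ)(q)| > 1` for all `q ∈ Q`, such
that the points `x` with `f^(kj)(x) → p` and `f^(-kj)(x) → q` as `j → ∞`, for some `p ∈ P` and
`q ∈ Q`, are dense in `M`.

(2) So `f` is topologically transitive if there is a nonempty open set `V` such that no point of `V`
is forward asymptotic to a volume contracting periodic point and backward asymptotic to a volume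
expanding one; for instance if `|det D(fᵏ)(p)| ≥ 1` whenever `fᵏ(p) = p`, `k ≥ 1`, or if
`|det D(fᵏ)(p)| ≤ 1` whenever `fᵏ(p) = p`, `k ≥ 1`.  Nothing is assumed about the points which are
not periodic, about the two bundles separately, their dimensions, or about `M`. -/
theorem result (E : Type*) [NormedAddCommGroup E] [NormedSpace ℝ E] [FiniteDimensional ℝ E]
    (M : Type*) [TopologicalSpace M] [T2Space M] [CompactSpace M] [ConnectedSpace M]
    [ChartedSpace E M] [IsManifold 𝓘(ℝ, E) ∞ M] (f : Diffeomorph 𝓘(ℝ, E) 𝓘(ℝ, E) M M 1)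
    (hf2 : ContMDiff 𝓘(ℝ, E) 𝓘(ℝ, E) 2 f) (hf2' : ContMDiff 𝓘(ℝ, E) 𝓘(ℝ, E) 2 f.symm)
    (Es Eu : ∀ x : M, Submodule ℝ (TangentSpace 𝓘(ℝ, E) x)) (hA : IsAnosov f Es Eu) :
    (¬ TopTransitive f → ∃ (k : ℕ) (P Q : Set M), 1 ≤ k ∧ P.Finite ∧ Q.Finite ∧
      (∀ p ∈ P, f^[k] p = p ∧ perJac E f k p < 1) ∧
      (∀ q ∈ Q, f^[k] q = q ∧ 1 < perJac E f k q) ∧
      Dense {x : M | (∃ p ∈ P, Tendsto (fun j : ℕ => f^[k * j] x) atTop (𝓝 p)) ∧
        ∃ q ∈ Q, Tendsto (fun j : ℕ => f.symm^[k * j] x) atTop (𝓝 q)}) ∧
    ((∃ V : Set M, IsOpen V ∧ V.Nonempty ∧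
        ∀ x ∈ V, ∀ (k : ℕ) (p q : M), 1 ≤ k → f^[k] p = p → f^[k] q = q →
          Tendsto (fun j : ℕ => f^[k * j] x) atTop (𝓝 p) →
          Tendsto (fun j : ℕ => f.symm^[k * j] x) atTop (𝓝 q) →
          1 ≤ perJac E f k p ∨ perJac E f k q ≤ 1) → TopTransitive f) ∧
    ((∀ (k : ℕ) (p : M), 1 ≤ k → f^[k] p = p → 1 ≤ perJac E f k p) → TopTransitive f) ∧
    ((∀ (k : ℕ) (p : M), 1 ≤ k → f^[k] p = p → perJac E f k p ≤ 1) → TopTransitive f) := by
  have h1 : ¬ TopTransitive f → ∃ (k : ℕ) (P Q : Set M), 1 ≤ k ∧ P.Finite ∧ Q.Finite ∧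
      (∀ p ∈ P, f^[k] p = p ∧ perJac E f k p < 1) ∧
      (∀ q ∈ Q, f^[k] q = q ∧ 1 < perJac E f k q) ∧
      Dense {x : M | (∃ p ∈ P, Tendsto (fun j : ℕ => f^[k * j] x) atTop (𝓝 p)) ∧
        ∃ q ∈ Q, Tendsto (fun j : ℕ => f.symm^[k * j] x) atTop (𝓝 q)} :=
    fun hnt => Pool.Agent.Y321.PJ.main f hf2 hf2' Es Eu hA hnt
  have h2 : (∃ V : Set M, IsOpen V ∧ V.Nonempty ∧
        ∀ x ∈ V, ∀ (k : ℕ) (p q : M), 1 ≤ k → f^[k] p = p → f^[k] q = q →
          Tendsto (fun j : ℕ => f^[k * j] x) atTop (𝓝 p) →
          Tendsto (fun j : ℕ => f.symm^[k * j] x) atTop (𝓝 q) →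
          1 ≤ perJac E f k p ∨ perJac E f k q ≤ 1) → TopTransitive f := by
    rintro ⟨V, hV, hne, h⟩
    by_contra hnt
    obtain ⟨n, P, Q, hn, -, -, hP, hQ, hd⟩ := h1 hnt
    obtain ⟨x, hxV, ⟨p, hp, hxp⟩, ⟨q, hq, hxq⟩⟩ := hd.inter_open_nonempty V hV hne
    rcases h x hxV n p q hn (hP p hp).1 (hQ q hq).1 hxp hxq with h | h
    · exact absurd h (not_le.mpr (hP p hp).2)
    · exact absurd h (not_le.mpr (hQ q hq).2)
  refine ⟨h1, h2, fun h => h2 ⟨univ, isOpen_univ, ?_, fun x _ k p q hk hp _ _ _ => Or.inl (h k p hk hp)⟩,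
    fun h => h2 ⟨univ, isOpen_univ, ?_, fun x _ k p q hk _ hq _ _ => Or.inr (h k q hk hq)⟩⟩
  · exact univ_nonempty
  · exact univ_nonempty

end Pool.Agent.Results.MP_5c499f_an.VolumePeriodicPoints
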